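import Mathlib

set_option autoImplicit false

/-!
Groups whose elementary algebraic subsets are all finite or everything (cofinite Zariski topology).
-/

namespace Pool.Agent.TH994.ZC

open Topology

universe u

/-- The elementary algebraic subset `{x | g₁ x^ε₁ g₂ x^ε₂ ⋯ gₙ x^εₙ = 1}` (`εᵢ = ±1`), given by the list
of the pairs `(gᵢ, εᵢ)`. -/
def elem {G : Type u} [Group G] (l : List (G × ℤˣ)) : Set G :=
  {x | (l.map (fun q => q.1 * x ^ (q.2 : ℤ))).prod = 1}

/-- The Zariski (verbal) topology: the elementary algebraic subsets are a subbase of closed sets. -/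
@[reducible] def zariski (G : Type u) [Group G] : TopologicalSpace G :=
  TopologicalSpace.generateFrom {U | ∃ l : List (G × ℤˣ), l ≠ [] ∧ U = (elem l)ᶜ}

/-- The Zariski topology is the cofinite topology: its closed sets are the finite sets and `G`. -/
def CofiniteZariski (G : Type u) [Group G] : Prop :=
  ∀ s : Set G, IsClosed[zariski G] s ↔ s.Finite ∨ s = Set.univ

/-- every elementary algebraic subset is finite or everything. -/
def InC (G : Type u) [Group G] : Prop :=
  ∀ l : List (G × ℤˣ), (elem l).Finite ∨ elem l = Set.univ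

section
variable {G : Type u} [Group G]

theorem elem_single (g : G) : elem [(g⁻¹, (1 : ℤˣ))] = {g} := by
  ext x
  simp only [elem, List.map_cons, List.map_nil, List.prod_cons, List.prod_nil, mul_one,
    Units.val_one, zpow_one, Set.mem_ofPred_eq, Set.mem_singleton_iff]
  rw [inv_mul_eq_one]
  exact eq_comm

theorem elem_closed (l : List (G × ℤˣ)) : IsClosed[zariski G] (elem l) := by
  by_cases h : l = []
  · subst h
    have : elem ([] : List (G × ℤˣ)) = Set.univ := by
      ext x; simp [elem]
    rw [this]
    exact @isClosed_univ G (zariski G)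
  · rw [← @isOpen_compl_iff G (elem l) (zariski G)]
    exact TopologicalSpace.isOpen_generateFrom_of_mem ⟨l, h, rfl⟩

theorem inC_of_cof (h : CofiniteZariski G) : InC G := fun l => (h _).1 (elem_closed l)

theorem cof_of_inC (h : InC G) : CofiniteZariski G := by
  intro s
  constructor
  · intro hs
    -- the topology is coarser than the cofinite one
    have key : ∀ U : Set G, IsOpen[zariski G] U → Uᶜ.Finite ∨ U = ∅ := by
      intro U hU
      induction hU with
      | basic U hU =>
        obtain ⟨l, -, rfl⟩ := hU
        rcases h l with h1 | h1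
        · left; rwa [compl_compl]
        · right; rw [h1, Set.compl_univ]
      | univ => left; simp
      | inter U V _ _ hU hV =>
        rcases hU with hU | hU
        · rcases hV with hV | hV
          · left; rw [Set.compl_inter]; exact hU.union hV
          · right; rw [hV, Set.inter_empty]
        · right; rw [hU, Set.empty_inter]
      | sUnion S _ hS =>
        by_cases hall : ∀ U ∈ S, U = ∅
        · right
          rw [Set.sUnion_eq_empty]
          exact hall
        · left
          push Not at hall
          obtain ⟨U, hU, hne⟩ := hall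
          rcases hS U hU with h1 | h1
          · exact h1.subset (Set.compl_subset_compl.2 (Set.subset_sUnion_of_mem hU))
          · exact absurd h1 (Set.nonempty_iff_ne_empty.1 hne)
    have h2 := key sᶜ ((@isOpen_compl_iff G s (zariski G)).2 hs)
    rw [compl_compl] at h2
    rcases h2 with h2 | h2
    · exact Or.inl h2
    · right; exact Set.compl_empty_iff.1 h2
  · rintro (hs | rfl)
    · have : s = ⋃ g ∈ s, elem [(g⁻¹, (1 : ℤˣ))] := by
        ext x
        simp only [elem_single, Set.mem_iUnion, Set.mem_singleton_iff, exists_prop, exists_eq_right']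
      rw [this]
      exact @Set.Finite.isClosed_biUnion G G (zariski G) s _ hs (fun g _ => elem_closed _)
    · exact @isClosed_univ G (zariski G)

/-- maps given by words with constants. -/
inductive WordMap : (G → G) → Prop
  | const (c : G) : WordMap (fun _ => c)
  | id : WordMap (fun x => x)
  | mul {f g : G → G} : WordMap f → WordMap g → WordMap (fun x => f x * g x)
  | inv {f : G → G} : WordMap f → WordMap (fun x => (f x)⁻¹)

theorem absorb (c : G) (l : List (G × ℤˣ)) : ∃ (l' : List (G × ℤˣ)) (c' : G),
    ∀ x : G, c * (l.map (fun q => q.1 * x ^ (q.2 : ℤ))).prod =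
      (l'.map (fun q => q.1 * x ^ (q.2 : ℤ))).prod * c' := by
  cases l with
  | nil => exact ⟨[], c, fun x => by simp⟩
  | cons q l =>
    refine ⟨(c * q.1, q.2) :: l, 1, fun x => ?_⟩
    simp only [List.map_cons, List.prod_cons, mul_one, mul_assoc]

theorem rep {f : G → G} (hf : WordMap f) : ∃ (l : List (G × ℤˣ)) (c : G),
    ∀ x : G, f x = (l.map (fun q => q.1 * x ^ (q.2 : ℤ))).prod * c := by
  induction hf with
  | const c => exact ⟨[], c, fun x => by simp⟩
  | id => exact ⟨[(1, 1)], 1, fun x => by simp⟩
  | mul _ _ hf hg =>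
    obtain ⟨l, c, h1⟩ := hf
    obtain ⟨m, d, h2⟩ := hg
    obtain ⟨m', c', h3⟩ := absorb c m
    refine ⟨l ++ m', c' * d, fun x => ?_⟩
    beta_reduce
    rw [h1, h2, List.map_append, List.prod_append, mul_assoc, ← mul_assoc c, h3]
    simp only [mul_assoc]
  | inv _ hf =>
    obtain ⟨l, c, h1⟩ := hf
    have key : ∀ (l : List (G × ℤˣ)) (c : G), ∃ (l' : List (G × ℤˣ)) (c' : G),
        ∀ x : G, ((l.map (fun q => q.1 * x ^ (q.2 : ℤ))).prod * c)⁻¹ =
          (l'.map (fun q => q.1 * x ^ (q.2 : ℤ))).prod * c' := by
      intro l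
      induction l with
      | nil => intro c; exact ⟨[], c⁻¹, fun x => by simp⟩
      | cons q l ih =>
        intro c
        obtain ⟨l', c', h⟩ := ih c
        refine ⟨l' ++ [(c', -q.2)], q.1⁻¹, fun x => ?_⟩
        rw [List.map_cons, List.prod_cons, mul_assoc, mul_inv_rev, h, mul_inv_rev]
        rw [List.map_append, List.prod_append, List.map_singleton, List.prod_singleton]
        simp only [Units.val_neg, zpow_neg, mul_assoc]
    obtain ⟨l', c', h2⟩ := key l c
    exact ⟨l', c', fun x => by beta_reduce; rw [h1, h2]⟩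

theorem fin_or_all (hG : InC G) {f : G → G} (hf : WordMap f) :
    {x : G | f x = 1}.Finite ∨ ∀ x, f x = 1 := by
  obtain ⟨l, c, h⟩ := rep hf
  cases l with
  | nil =>
    by_cases hc : c = 1
    · right; intro x; rw [h x, hc]; simp
    · left
      have : {x : G | f x = 1} = ∅ := by
        ext x
        simp only [Set.mem_ofPred_eq, Set.mem_empty_iff_false, iff_false]
        rw [h x]
        simpa using hc
      rw [this]
      exact Set.finite_empty
  | cons q l =>
    have h2 : ∀ x, f x = 1 ↔ x ∈ elem ((c * q.1, q.2) :: l) := by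
      intro x
      rw [h x]
      simp only [elem, List.map_cons, List.prod_cons, Set.mem_ofPred_eq]
      constructor
      · intro h3
        have h4 := mul_eq_one_iff_inv_eq.1 h3
        rw [← h4]
        group
      · intro h3
        have h5 : c * (q.1 * x ^ (q.2 : ℤ) *
            (List.map (fun q : G × ℤˣ => q.1 * x ^ (q.2 : ℤ)) l).prod) = 1 := by
          rw [← h3]; simp only [mul_assoc]
        have h4 := (mul_eq_one_iff_eq_inv.1 h5)
        rw [h4]
        simp
    rcases hG ((c * q.1, q.2) :: l) with h1 | h1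
    · left
      exact h1.subset (fun x hx => (h2 x).1 hx)
    · right
      intro x
      rw [h2, h1]
      exact Set.mem_univ _

theorem all_of_infinite (hG : InC G) {f : G → G} (hf : WordMap f)
    (h : {x : G | f x = 1}.Infinite) : ∀ x, f x = 1 := by
  rcases fin_or_all hG hf with h1 | h1
  · exact absurd h1 h
  · exact h1

/-- the same for the equation `f x = c`. -/
theorem all_of_infinite' (hG : InC G) {f : G → G} (hf : WordMap f) (c : G)
    (h : {x : G | f x = c}.Infinite) : ∀ x, f x = c := by
  have h1 : WordMap (fun x => f x * (fun _ => c⁻¹) x) := hf.mul (WordMap.const c⁻¹)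
  have h2 := all_of_infinite hG h1 (by
    refine h.mono (fun x hx => ?_)
    simp only [Set.mem_ofPred_eq] at hx ⊢
    rw [hx]; simp)
  intro x
  have := h2 x
  simp only at this
  exact mul_inv_eq_one.1 this

/-- if `f` takes infinitely often values in a finite set, it is constant. -/
theorem const_of_finite (hG : InC G) {f : G → G} (hf : WordMap f) {S : Set G} (hS : S.Finite)
    {T : Set G} (hT : T.Infinite) (h : ∀ x ∈ T, f x ∈ S) : ∃ c ∈ S, ∀ x, f x = c := by
  by_contra hcon
  push Not at hcon
  apply hT
  have : T ⊆ ⋃ c ∈ S, {x : G | f x = c} := by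
    intro x hx
    simp only [Set.mem_iUnion, Set.mem_ofPred_eq, exists_prop]
    exact ⟨f x, h x hx, rfl⟩
  refine (hS.biUnion (fun c hc => ?_)).subset this
  by_contra hinf
  obtain ⟨x, hx⟩ := hcon c hc
  exact hx (all_of_infinite' hG hf c hinf x)

theorem wm_pow {f : G → G} (hf : WordMap f) (n : ℕ) : WordMap (fun x => f x ^ n) := by
  induction n with
  | zero => simpa using WordMap.const (1 : G)
  | succ n ih =>
    have := ih.mul hf
    simpa [pow_succ] using this

theorem wm_comm (a : G) : WordMap (fun x : G => a * x * a⁻¹ * x⁻¹) :=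
  (((WordMap.const a).mul WordMap.id).mul (WordMap.const a⁻¹)).mul (WordMap.inv WordMap.id)

theorem wm_conj (a : G) : WordMap (fun x : G => x * a * x⁻¹) :=
  ((WordMap.id).mul (WordMap.const a)).mul (WordMap.inv WordMap.id)

theorem central_iff (a : G) : a ∈ Subgroup.center G ↔ ∀ x, x * a * x⁻¹ = a := by
  rw [Subgroup.mem_center_iff]
  constructor
  · intro h x; rw [h x]; simp
  · intro h x
    have := h x
    rw [mul_inv_eq_iff_eq_mul] at this
    exact this

/-- fibres of `g ↦ g a g⁻¹` are finite for a non-central `a`. -/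
theorem fibre (hG : InC G) {a : G} (ha : a ∉ Subgroup.center G) (b : G) :
    {x : G | x * a * x⁻¹ = b}.Finite := by
  by_contra h
  have h1 := all_of_infinite' hG (wm_conj a) b h
  apply ha
  rw [central_iff]
  intro x
  rw [h1 x]
  have := h1 1
  simpa using this.symm

theorem centralizer_finite (hG : InC G) {a : G} (ha : a ∉ Subgroup.center G) :
    {x : G | x * a = a * x}.Finite := by
  refine (fibre hG ha a).subset (fun x hx => ?_)
  simp only [Set.mem_ofPred_eq] at hx ⊢
  rw [hx]; simp

theorem conj_infinite [Infinite G] (hG : InC G) {a : G} (ha : a ∉ Subgroup.center G) :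
    {y : G | ∃ x, y = x * a * x⁻¹}.Infinite := by
  intro h
  have h1 : ((fun x : G => x * a * x⁻¹) ⁻¹' {y : G | ∃ x, y = x * a * x⁻¹}).Finite :=
    Set.Finite.preimage' h (fun b _ => fibre hG ha b)
  have h2 : ((fun x : G => x * a * x⁻¹) ⁻¹' {y : G | ∃ x, y = x * a * x⁻¹}) = Set.univ := by
    ext x
    exact ⟨fun _ => trivial, fun _ => ⟨x, rfl⟩⟩
  rw [h2] at h1
  exact Set.infinite_univ h1

theorem center_finite (hG : InC G) (hna : ¬ ∀ a b : G, a * b = b * a) :
    (Subgroup.center G : Set G).Finite := by
  push Not at hna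
  obtain ⟨a, b, hab⟩ := hna
  have ha : a ∉ Subgroup.center G := by
    intro h
    rw [Subgroup.mem_center_iff] at h
    exact hab (h b).symm
  refine (centralizer_finite hG ha).subset (fun z hz => ?_)
  simp only [Set.mem_ofPred_eq]
  exact ((Subgroup.mem_center_iff.1 hz) a).symm

theorem exists_noncentral (hna : ¬ ∀ a b : G, a * b = b * a) : ∃ a : G, a ∉ Subgroup.center G := by
  push Not at hna
  obtain ⟨a, b, hab⟩ := hna
  refine ⟨a, fun h => ?_⟩
  rw [Subgroup.mem_center_iff] at h
  exact hab (h b).symm

/-- all non-central elements have finite order and the same order. -/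
theorem pow_order [Infinite G] (hG : InC G) {a : G} (ha : a ∉ Subgroup.center G) {n : ℕ}
    (hn : a ^ n = 1) (x : G) : x ^ n = 1 := by
  refine all_of_infinite hG (wm_pow WordMap.id n) ?_ x
  refine (conj_infinite hG ha).mono ?_
  rintro y ⟨x, rfl⟩
  simp only [Set.mem_ofPred_eq]
  rw [conj_pow, hn]
  simp

theorem order_pos (hG : InC G) {a : G} (ha : a ∉ Subgroup.center G) : 0 < orderOf a := by
  rw [orderOf_pos_iff]
  by_contra h
  have h1 : Function.Injective (fun n : ℕ => a ^ n) := by
    rw [injective_pow_iff_not_isOfFinOrder]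
    exact h
  have h2 := Set.infinite_range_of_injective h1
  apply h2
  refine (centralizer_finite hG ha).subset ?_
  rintro y ⟨n, rfl⟩
  simp only [Set.mem_ofPred_eq]
  exact (Commute.pow_self a n).eq

/-- **the exponent is a prime.** -/
theorem prime_exponent [Infinite G] (hG : InC G) (hna : ¬ ∀ a b : G, a * b = b * a) :
    ∃ p : ℕ, p.Prime ∧ ∀ x : G, x ^ p = 1 := by
  obtain ⟨a, ha⟩ := exists_noncentral hna
  set n := orderOf a with hn
  have hpos : 0 < n := order_pos hG ha
  have hne : n ≠ 1 := by
    intro h
    rw [hn, orderOf_eq_one_iff] at h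
    subst h
    exact ha (Subgroup.one_mem _)
  set q := n.minFac with hq
  have hqp : q.Prime := Nat.minFac_prime hne
  have hqn : q ∣ n := Nat.minFac_dvd n
  have hord : ∀ x : G, x ∉ Subgroup.center G → orderOf x = n := by
    intro x hx
    apply Nat.dvd_antisymm
    · exact orderOf_dvd_of_pow_eq_one (pow_order hG ha (pow_orderOf_eq_one a) x)
    · exact orderOf_dvd_of_pow_eq_one (pow_order hG hx (pow_orderOf_eq_one x) a)
  have hcen : ∀ x : G, x ^ q ∈ Subgroup.center G := by
    intro x
    by_contra h
    have hx : x ∉ Subgroup.center G := fun hx => h (Subgroup.pow_mem _ hx q)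
    have h1 := hord x hx
    have h2 := hord _ h
    obtain ⟨m, hm⟩ := hqn
    have h3 : (x ^ q) ^ m = 1 := by
      rw [← pow_mul, ← hm, ← h1]
      exact pow_orderOf_eq_one x
    have h4 : n ∣ m := by
      rw [← h2]
      exact orderOf_dvd_of_pow_eq_one h3
    have h5 : m ≠ 0 := by
      rintro rfl
      simp at hm
      omega
    have h6 := Nat.le_of_dvd (Nat.pos_of_ne_zero h5) h4
    have h7 := hqp.two_le
    have h8 : 2 * m ≤ q * m := Nat.mul_le_mul_right m h7
    omega
  refine ⟨q, hqp, ?_⟩
  obtain ⟨c, -, hc⟩ := const_of_finite hG (wm_pow WordMap.id q) (center_finite hG hna)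
    (Set.infinite_univ) (fun x _ => hcen x)
  intro x
  rw [hc x]
  have := hc 1
  simpa using this.symm

/-- exponent two. -/
theorem comm_of_two (h : ∀ x : G, x ^ 2 = 1) (a b : G) : a * b = b * a := by
  have ha : a⁻¹ = a := inv_eq_of_mul_eq_one_left (by rw [← sq]; exact h a)
  have hb : b⁻¹ = b := inv_eq_of_mul_eq_one_left (by rw [← sq]; exact h b)
  have hab : (a * b)⁻¹ = a * b := inv_eq_of_mul_eq_one_left (by rw [← sq]; exact h _)
  rw [mul_inv_rev, ha, hb] at hab
  exact hab.symm

/-- exponent three: `x` commutes with its conjugates. -/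
theorem three (h : ∀ x : G, x ^ 3 = 1) (x y : G) :
    x * (y * x * y⁻¹) = (y * x * y⁻¹) * x := by
  have key : ∀ x y : G, x * y * x = y⁻¹ * x⁻¹ * y⁻¹ := by
    intro x y
    have h1 := h (x * y)
    have h2 : x * y * x * (y * x * y) = 1 := by
      rw [← h1, pow_succ, pow_two]
      simp only [mul_assoc]
    rw [mul_eq_one_iff_eq_inv] at h2
    rw [h2]
    simp only [mul_inv_rev, mul_assoc]
  have hsq : ∀ y : G, y * y = y⁻¹ := by
    intro y
    have h1 := h y
    rw [pow_succ, pow_two] at h1
    exact mul_eq_one_iff_eq_inv.1 h1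
  have hsq' : ∀ y : G, y⁻¹ * y⁻¹ = y := by
    intro y
    have := hsq y⁻¹
    rwa [inv_inv] at this
  have e1 : x * (y * x * y⁻¹) = y⁻¹ * x⁻¹ * y := by
    have h1 := key x y
    calc x * (y * x * y⁻¹) = (x * y * x) * y⁻¹ := by simp only [mul_assoc]
      _ = y⁻¹ * x⁻¹ * (y⁻¹ * y⁻¹) := by rw [h1]; simp only [mul_assoc]
      _ = y⁻¹ * x⁻¹ * y := by rw [hsq']
  have e2 : (y * x * y⁻¹) * x = y⁻¹ * x⁻¹ * y := by
    have h1 := key x y⁻¹
    rw [inv_inv] at h1
    calc (y * x * y⁻¹) * x = y * (x * y⁻¹ * x) := by simp only [mul_assoc]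
      _ = (y * y) * x⁻¹ * y := by rw [h1]; simp only [mul_assoc]
      _ = y⁻¹ * x⁻¹ * y := by rw [hsq]
  rw [e1, e2]

theorem prime_ge_five [Infinite G] (hG : InC G) (hna : ¬ ∀ a b : G, a * b = b * a) {p : ℕ}
    (hp : p.Prime) (h : ∀ x : G, x ^ p = 1) : 5 ≤ p := by
  by_contra hlt
  have h2 := hp.two_le
  have h4 : p ≠ 4 := by rintro rfl; revert hp; decide
  have : p = 2 ∨ p = 3 := by omega
  rcases this with rfl | rfl
  · exact hna (comm_of_two h)
  · obtain ⟨a, ha⟩ := exists_noncentral hna
    refine conj_infinite hG ha ((centralizer_finite hG ha).subset ?_)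
    rintro y ⟨x, rfl⟩
    simp only [Set.mem_ofPred_eq]
    exact (three h a x).symm

/-! ### subgroups and the central quotient -/

theorem inC_subgroup (hG : InC G) (H : Subgroup G) : InC H := by
  intro l
  set l' : List (G × ℤˣ) := l.map (fun q => ((q.1 : G), q.2)) with hl'
  have key : ∀ x : H, x ∈ elem l ↔ (x : G) ∈ elem l' := by
    intro x
    simp only [elem, Set.mem_ofPred_eq, hl', List.map_map]
    rw [← Subtype.coe_inj, Subgroup.val_list_prod, List.map_map]
    simp only [Subgroup.coe_one]
    have : (Subtype.val ∘ fun q : H × ℤˣ => q.1 * x ^ (q.2 : ℤ)) =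
        ((fun q : G × ℤˣ => q.1 * (x : G) ^ (q.2 : ℤ)) ∘ fun q : H × ℤˣ => ((q.1 : G), q.2)) := by
      funext q
      simp
    rw [this]
  rcases hG l' with h | h
  · left
    have : elem l = Subtype.val ⁻¹' elem l' := by
      ext x; exact key x
    rw [this]
    exact h.preimage Subtype.val_injective.injOn
  · right
    ext x
    rw [key x, h]
    simp

theorem inC_quotient (hG : InC G) (hna : ¬ ∀ a b : G, a * b = b * a) :
    InC (G ⧸ Subgroup.center G) := by
  intro l
  -- a lift of the constants
  set r : G ⧸ Subgroup.center G → G := Quotient.out with hr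
  have hrr : ∀ y : G ⧸ Subgroup.center G, (QuotientGroup.mk (r y) : G ⧸ Subgroup.center G) = y := fun y => QuotientGroup.out_eq' y
  set f : G → G := fun x => (l.map (fun q => r q.1 * x ^ (q.2 : ℤ))).prod with hf
  have hfw : WordMap f := by
    rw [hf]
    clear hf f
    induction l with
    | nil => simpa using WordMap.const (1 : G)
    | cons q l ih =>
      simp only [List.map_cons, List.prod_cons]
      refine WordMap.mul (WordMap.mul (WordMap.const _) ?_) ih
      rcases Int.units_eq_one_or q.2 with h | h
      · rw [h]; simpa using WordMap.id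
      · rw [h]; simpa using WordMap.inv WordMap.id
  have hmk : ∀ x : G, ((QuotientGroup.mk x : G ⧸ Subgroup.center G) ∈ elem l) ↔ f x ∈ Subgroup.center G := by
    intro x
    rw [← QuotientGroup.eq_one_iff]
    simp only [elem, Set.mem_ofPred_eq, hf]
    have : (QuotientGroup.mk ((l.map (fun q => r q.1 * x ^ (q.2 : ℤ))).prod) : G ⧸ Subgroup.center G) =
        (l.map (fun q => q.1 * (QuotientGroup.mk x : G ⧸ Subgroup.center G) ^ (q.2 : ℤ))).prod := by
      change (QuotientGroup.mk' (Subgroup.center G)) ((l.map (fun q => r q.1 * x ^ (q.2 : ℤ))).prod) = _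
      rw [map_list_prod, List.map_map]
      congr 1
      apply List.map_congr_left
      intro q _
      simp only [Function.comp, map_mul, map_zpow]
      rw [QuotientGroup.mk'_apply, QuotientGroup.mk'_apply, hrr]
    rw [this]
  by_cases hfin : {x : G | f x ∈ Subgroup.center G}.Finite
  · left
    have : elem l ⊆ (QuotientGroup.mk : G → G ⧸ Subgroup.center G) '' {x : G | f x ∈ Subgroup.center G} := by
      intro y hy
      refine ⟨r y, ?_, hrr y⟩
      simp only [Set.mem_ofPred_eq]
      rw [← hmk, hrr]
      exact hy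
    exact (hfin.image _).subset this
  · right
    obtain ⟨c, hc, hall⟩ := const_of_finite hG hfw (center_finite hG hna) hfin (fun x hx => hx)
    ext y
    simp only [Set.mem_univ, iff_true]
    rw [← hrr y, hmk, hall]
    exact hc

theorem center_quotient [Infinite G] (hG : InC G) (hna : ¬ ∀ a b : G, a * b = b * a) :
    Subgroup.center (G ⧸ Subgroup.center G) = ⊥ := by
  rw [eq_bot_iff]
  intro y hy
  induction y using QuotientGroup.induction_on with
  | H a =>
    rw [Subgroup.mem_bot, QuotientGroup.eq_one_iff]
    have h1 : ∀ x : G, a * x * a⁻¹ * x⁻¹ ∈ Subgroup.center G := by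
      intro x
      rw [← QuotientGroup.eq_one_iff]
      have h2 := (Subgroup.mem_center_iff.1 hy) (x : G ⧸ Subgroup.center G)
      simp only [QuotientGroup.mk_mul, QuotientGroup.mk_inv]
      rw [← h2]
      simp
    obtain ⟨c, -, hc⟩ := const_of_finite hG (wm_comm a) (center_finite hG hna)
      (Set.infinite_univ) (fun x _ => h1 x)
    have hc1 : c = 1 := by
      have := hc 1
      simpa using this.symm
    subst hc1
    rw [Subgroup.mem_center_iff]
    intro x
    have := hc x
    rw [mul_inv_eq_one, mul_inv_eq_iff_eq_mul] at this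
    exact this.symm

theorem infinite_quotient [Infinite G] (hG : InC G) (hna : ¬ ∀ a b : G, a * b = b * a) :
    Infinite (G ⧸ Subgroup.center G) := by
  by_contra h
  rw [not_infinite_iff_finite] at h
  have hfin : Finite (Subgroup.center G) := (center_finite hG hna).to_subtype
  have : Finite G := by
    have h1 : Finite ((G ⧸ Subgroup.center G) × Subgroup.center G) := inferInstance
    exact Finite.of_equiv _ (Subgroup.groupEquivQuotientProdSubgroup (s := Subgroup.center G)).symm
  exact not_finite G

end

end Pool.Agent.TH994.ZC
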