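import Mathlib
import Pool.Agent.TH994.ZC.Basic

set_option autoImplicit false

namespace Pool.Agent.TH994.ZC

universe u

section
variable {G : Type u} [Group G]

theorem exists_fg_centerless [Infinite G] (hG : InC G) (hna : ¬ ∀ a b : G, a * b = b * a)
    (hc : Subgroup.center G = ⊥) : ∃ K : Subgroup G, K.FG ∧ Infinite K := by
  by_contra hcon
  have hall : ∀ K : Subgroup G, K.FG → Finite K := by
    intro K hK
    by_contra h
    exact hcon ⟨K, hK, not_finite_iff_infinite.1 h⟩
  obtain ⟨p, hp, hexp⟩ := prime_exponent hG hna
  obtain ⟨a, ha⟩ := exists_noncentral hna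
  have hfin := centralizer_finite hG ha
  have hg : ∀ z : G, ∃ g : G, z ≠ 1 → g * z ≠ z * g := by
    intro z
    by_cases hz : z = 1
    · exact ⟨1, fun h => absurd hz h⟩
    · have : z ∉ Subgroup.center G := by
        rw [hc, Subgroup.mem_bot]; exact hz
      rw [Subgroup.mem_center_iff] at this
      push Not at this
      obtain ⟨g, hg⟩ := this
      exact ⟨g, fun _ => hg⟩
  choose g hg using hg
  set S : Set G := {a} ∪ g '' {x : G | x * a = a * x} with hS
  have hSfin : S.Finite := (Set.finite_singleton a).union (hfin.image g)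
  set F : Subgroup G := Subgroup.closure S with hF
  have hFG : F.FG := by
    rw [Subgroup.fg_iff]
    exact ⟨S, rfl, hSfin⟩
  have hFfin : Finite F := hall F hFG
  have haF : a ∈ F := Subgroup.subset_closure (by rw [hS]; left; rfl)
  have ha1 : a ≠ 1 := by
    rintro rfl
    exact ha (Subgroup.one_mem _)
  have hnt : Nontrivial F := ⟨⟨⟨a, haF⟩, 1, fun h => ha1 (congrArg Subtype.val h)⟩⟩
  have hpg : IsPGroup p F := by
    intro x
    refine ⟨1, ?_⟩
    apply Subtype.ext
    rw [pow_one]
    simpa using hexp (x : G)
  have : Fact p.Prime := ⟨hp⟩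
  have := hpg.center_nontrivial
  obtain ⟨z, hz⟩ := exists_ne (1 : Subgroup.center F)
  have hz1 : ((z : F) : G) ≠ 1 := by
    intro h
    apply hz
    apply Subtype.ext
    apply Subtype.ext
    simpa using h
  have hcomm : ∀ y ∈ F, y * ((z : F) : G) = ((z : F) : G) * y := by
    intro y hy
    have := (Subgroup.mem_center_iff.1 z.2) ⟨y, hy⟩
    exact congrArg Subtype.val this
  have hza : ((z : F) : G) ∈ {x : G | x * a = a * x} := (hcomm a haF).symm
  have hgz : g ((z : F) : G) ∈ F := by
    apply Subgroup.subset_closure
    rw [hS]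
    right
    exact ⟨_, hza, rfl⟩
  exact hg _ hz1 (hcomm _ hgz)

theorem not_comm_of_center [Infinite G] (hc : Subgroup.center G = ⊥) :
    ¬ ∀ a b : G, a * b = b * a := by
  intro h
  have h1 : ∀ a : G, a = 1 := by
    intro a
    have : a ∈ Subgroup.center G := Subgroup.mem_center_iff.2 (fun g => h g a)
    rw [hc, Subgroup.mem_bot] at this
    exact this
  have : Subsingleton G := ⟨fun a b => by rw [h1 a, h1 b]⟩
  exact not_finite G

theorem exists_fg [Infinite G] (hG : InC G) (hna : ¬ ∀ a b : G, a * b = b * a) :
    ∃ K : Subgroup G, K.FG ∧ Infinite K := by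
  have := infinite_quotient hG hna
  have hc := center_quotient hG hna
  obtain ⟨K, hK, hKi⟩ := exists_fg_centerless (inC_quotient hG hna) (not_comm_of_center hc) hc
  rw [Subgroup.fg_iff] at hK
  obtain ⟨S, hS, hSfin⟩ := hK
  set K' : Subgroup G := Subgroup.closure (Quotient.out '' S) with hK'
  have hmap : K'.map (QuotientGroup.mk' (Subgroup.center G)) = K := by
    rw [hK', MonoidHom.map_closure, ← hS]
    congr 1
    ext y
    simp only [Set.mem_image, exists_exists_and_eq_and]
    constructor
    · rintro ⟨b, hb, rfl⟩
      rw [QuotientGroup.mk'_apply]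
      have : (QuotientGroup.mk (Quotient.out b) : G ⧸ Subgroup.center G) = b :=
        QuotientGroup.out_eq' b
      rw [this]
      exact hb
    · intro hy
      exact ⟨y, hy, QuotientGroup.out_eq' y⟩
  refine ⟨K', ?_, ?_⟩
  · rw [Subgroup.fg_iff]
    exact ⟨_, rfl, hSfin.image _⟩
  · by_contra h
    rw [not_infinite_iff_finite] at h
    have h1 : ((K' : Set G)).Finite := Set.toFinite _
    have h2 : ((K : Set (G ⧸ Subgroup.center G))).Finite := by
      rw [← hmap, Subgroup.coe_map]
      exact h1.image _
    have : Finite K := h2.to_subtype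
    exact not_finite K

/-- an infinite subgroup has centraliser the centre. -/
theorem central_of_comm_infinite (hG : InC G) (H : Subgroup G) (hH : Infinite H) (g : G)
    (h : ∀ x ∈ H, g * x = x * g) : g ∈ Subgroup.center G := by
  by_contra hg
  have h1 := centralizer_finite hG hg
  have h2 : (H : Set G).Finite := h1.subset (fun x hx => (h x hx).symm)
  have : Finite H := h2.to_subtype
  exact not_finite H

theorem infinite_subgroup_not_comm (hG : InC G) (hna : ¬ ∀ a b : G, a * b = b * a)
    (H : Subgroup G) (hH : Infinite H) : ¬ ∀ a b : H, a * b = b * a := by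
  intro h
  have h1 : (H : Set G) ⊆ (Subgroup.center G : Set G) := by
    intro a ha
    apply central_of_comm_infinite hG H hH
    intro x hx
    exact congrArg Subtype.val (h ⟨a, ha⟩ ⟨x, hx⟩)
  have h2 : (H : Set G).Finite := (center_finite hG hna).subset h1
  have : Finite H := h2.to_subtype
  exact not_finite H

/-- locally finite subgroups are finite. -/
theorem locally_finite (hG : InC G) (hna : ¬ ∀ a b : G, a * b = b * a)
    (H : Subgroup G) (hloc : ∀ K : Subgroup G, K ≤ H → K.FG → Finite K) : Finite H := by
  by_contra hcon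
  have hH : Infinite H := not_finite_iff_infinite.1 hcon
  obtain ⟨K, hK, hKi⟩ := exists_fg (inC_subgroup hG H) (infinite_subgroup_not_comm hG hna H hH)
  have h1 : (K.map H.subtype).FG := by
    rw [Subgroup.fg_iff] at hK ⊢
    obtain ⟨S, hS, hSfin⟩ := hK
    refine ⟨H.subtype '' S, ?_, hSfin.image _⟩
    rw [← hS, MonoidHom.map_closure]
  have h2 := hloc (K.map H.subtype) (by
    rintro x ⟨y, _, rfl⟩
    exact y.2) h1
  have h3 : ((K.map H.subtype : Subgroup G) : Set G).Finite := Set.toFinite _
  rw [Subgroup.coe_map] at h3
  have h4 : (K : Set H).Finite := Set.Finite.of_finite_image h3 (Subtype.val_injective.injOn)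
  have : Finite K := h4.to_subtype
  exact not_finite K

/-- an infinite soluble group in the class is abelian. -/
theorem comm_of_solvable [Infinite G] (hG : InC G) (hs : Group.IsSolvable G) :
    ∀ a b : G, a * b = b * a := by
  by_contra hna
  obtain ⟨m, hm⟩ := hs.solvable
  have hex : ∃ n, derivedSeries G n ≤ Subgroup.center G := ⟨m, by rw [hm]; exact bot_le⟩
  classical
  set n := Nat.find hex with hn
  have h1 : derivedSeries G n ≤ Subgroup.center G := Nat.find_spec hex
  have hn0 : n ≠ 0 := by
    intro h0
    rw [h0, derivedSeries_zero] at h1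
    apply hna
    intro a b
    have := Subgroup.mem_center_iff.1 (h1 (Subgroup.mem_top b)) a
    exact this
  obtain ⟨k, hk⟩ := Nat.exists_eq_succ_of_ne_zero hn0
  have h2 : ¬ derivedSeries G k ≤ Subgroup.center G := by
    have : k < n := by omega
    exact Nat.find_min hex this
  rw [SetLike.not_le_iff_exists] at h2
  obtain ⟨a, haK, ha⟩ := h2
  have hKinf : (derivedSeries G k : Set G).Infinite := by
    refine (conj_infinite hG ha).mono ?_
    rintro y ⟨x, rfl⟩
    exact (inferInstance : (derivedSeries G k).Normal).conj_mem a haK x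
  obtain ⟨c, -, hc⟩ := const_of_finite hG (wm_comm a) (center_finite hG hna) hKinf (by
    intro x hx
    apply h1
    rw [hk]
    exact Subgroup.commutator_mem_commutator haK hx)
  have hc1 : c = 1 := by
    have := hc 1
    simpa using this.symm
  subst hc1
  apply ha
  rw [Subgroup.mem_center_iff]
  intro x
  have := hc x
  rw [mul_inv_eq_one, mul_inv_eq_iff_eq_mul] at this
  exact this.symm

theorem solvable_finite (hG : InC G) (hna : ¬ ∀ a b : G, a * b = b * a)
    (H : Subgroup G) (hs : Group.IsSolvable H) : Finite H := by
  by_contra hcon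
  have hH : Infinite H := not_finite_iff_infinite.1 hcon
  exact infinite_subgroup_not_comm hG hna H hH (comm_of_solvable (inC_subgroup hG H) hs)

theorem finite_normal_central [Infinite G] (hG : InC G) (N : Subgroup G) (hN : N.Normal)
    (hfin : Finite N) : N ≤ Subgroup.center G := by
  intro a ha
  by_contra h
  apply conj_infinite hG h
  have h1 : (N : Set G).Finite := Set.toFinite _
  refine h1.subset ?_
  rintro y ⟨x, rfl⟩
  exact hN.conj_mem a ha x

/-! ### laws -/

theorem wm_update (w : FreeGroup ℕ) (f : ℕ → G) (n : ℕ) :
    WordMap (fun x : G => FreeGroup.lift (Function.update f n x) w) := by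
  induction w using FreeGroup.induction_on with
  | C1 => simpa using WordMap.const (1 : G)
  | of i =>
    by_cases h : i = n
    · subst h
      simpa using WordMap.id
    · have : (fun x : G => FreeGroup.lift (Function.update f n x) (FreeGroup.of i)) =
          fun _ => f i := by
        funext x
        rw [FreeGroup.lift_apply_of, Function.update_of_ne h]
      rw [this]
      exact WordMap.const _
  | inv_of i h => simpa using WordMap.inv h
  | mul x y hx hy => simpa using WordMap.mul hx hy

theorem support (w : FreeGroup ℕ) : ∃ N : ℕ, ∀ (f g : ℕ → G), (∀ i < N, f i = g i) →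
    FreeGroup.lift f w = FreeGroup.lift g w := by
  induction w using FreeGroup.induction_on with
  | C1 => exact ⟨0, fun f g _ => by simp⟩
  | of i => exact ⟨i + 1, fun f g h => by simpa using h i (Nat.lt_succ_self i)⟩
  | inv_of i h =>
    obtain ⟨N, hN⟩ := h
    exact ⟨N, fun f g h => by rw [map_inv, map_inv, hN f g h]⟩
  | mul x y hx hy =>
    obtain ⟨N, hN⟩ := hx
    obtain ⟨M, hM⟩ := hy
    refine ⟨max N M, fun f g h => ?_⟩
    rw [map_mul, map_mul, hN f g (fun i hi => h i (lt_of_lt_of_le hi (le_max_left _ _))),
      hM f g (fun i hi => h i (lt_of_lt_of_le hi (le_max_right _ _)))]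

/-- a law of an infinite subgroup is a law of the whole group. -/
theorem law (hG : InC G) (H : Subgroup G) (hH : Infinite H) (w : FreeGroup ℕ)
    (hw : ∀ f : ℕ → G, (∀ i, f i ∈ H) → FreeGroup.lift f w = 1) (f : ℕ → G) :
    FreeGroup.lift f w = 1 := by
  have key : ∀ (n : ℕ) (f : ℕ → G), (∀ i, n ≤ i → f i ∈ H) → FreeGroup.lift f w = 1 := by
    intro n
    induction n with
    | zero => intro f hf; exact hw f (fun i => hf i (Nat.zero_le i))
    | succ n ih =>
      intro f hf
      have h1 : ∀ x : G, FreeGroup.lift (Function.update f n x) w = 1 := by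
        apply all_of_infinite hG (wm_update w f n)
        have hHs : (H : Set G).Infinite := Set.infinite_coe_iff.1 hH
        refine hHs.mono (fun x hx => ?_)
        apply ih
        intro i hi
        by_cases h : i = n
        · subst h; simpa using hx
        · rw [Function.update_of_ne h]
          exact hf i (by omega)
      have h2 := h1 (f n)
      rwa [Function.update_eq_self] at h2
  obtain ⟨N, hN⟩ := support (G := G) w
  rw [hN f (fun i => if i < N then f i else 1) (fun i hi => by simp [hi])]
  apply key N
  intro i hi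
  have : ¬ i < N := by omega
  simp only [this, if_false]
  exact Subgroup.one_mem _

end

end Pool.Agent.TH994.ZC
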