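import Mathlib
import Pool.Agent.TH994.ZC.Struct

set_option autoImplicit false

namespace Pool.Agent.TH994.ZC

open Topology Pointwise

universe u

/-- The Markov topology: the intersection of all Hausdorff group topologies, i.e. a set is open when it is
open in each of them. -/
@[reducible] def markov (G : Type u) [Group G] : TopologicalSpace G :=
  sSup {t : TopologicalSpace G | @IsTopologicalGroup G t _ ∧ @T2Space G t}

/-- The Markov topology is the cofinite topology. -/
def MarkovCofinite (G : Type u) [Group G] : Prop :=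
  ∀ s : Set G, IsOpen[markov G] s ↔ (s = ∅ ∨ sᶜ.Finite)

section
variable {G : Type u} [Group G]

theorem markov_open_iff (s : Set G) : IsOpen[markov G] s ↔
    ∀ t : TopologicalSpace G, @IsTopologicalGroup G t _ → @T2Space G t → IsOpen[t] s := by
  rw [isOpen_sSup_iff]
  constructor
  · intro h t h1 h2; exact h t ⟨h1, h2⟩
  · intro h t ht; exact h t ht.1 ht.2

theorem markov_open_of_cofinite {s : Set G} (h : s = ∅ ∨ sᶜ.Finite) : IsOpen[markov G] s := by
  rw [markov_open_iff]
  intro t _ ht
  rcases h with rfl | h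
  · exact @isOpen_empty G t
  · let := t
    have h3 : IsClosed sᶜ := h.isClosed
    rw [← isClosed_compl_iff]
    exact h3

theorem countable_closure {S : Set G} (hS : S.Countable) :
    ((Subgroup.closure S : Subgroup G) : Set G).Countable := by
  have : Countable S := hS.to_subtype
  have h1 : Countable (FreeGroup S) := by
    unfold FreeGroup
    infer_instance
  have h2 : Subgroup.closure S = (FreeGroup.lift (Subtype.val : S → G)).range := by
    rw [FreeGroup.range_lift_eq_closure, Subtype.range_coe]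
  rw [h2, MonoidHom.coe_range]
  exact Set.countable_range _

theorem lift_list (H : Subgroup G) (l : List (G × ℤˣ)) (hall : ∀ q ∈ l, q.1 ∈ H) :
    ∃ l' : List (H × ℤˣ), l'.map (fun q => ((q.1 : G), q.2)) = l := by
  induction l with
  | nil => exact ⟨[], rfl⟩
  | cons q l ih =>
    obtain ⟨l', hl'⟩ := ih (fun q hq => hall q (List.mem_cons_of_mem _ hq))
    exact ⟨(⟨q.1, hall q List.mem_cons_self⟩, q.2) :: l', by simp [hl']⟩

/-- word maps are continuous for every group topology. -/
theorem continuous_list [TopologicalSpace G] [IsTopologicalGroup G] (l : List (G × ℤˣ)) :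
    Continuous (fun x : G => (l.map (fun q => q.1 * x ^ (q.2 : ℤ))).prod) := by
  induction l with
  | nil => simpa using continuous_const
  | cons q l ih =>
    simp only [List.map_cons, List.prod_cons]
    exact (continuous_const.mul (continuous_zpow _)).mul ih

/-- if all countable subgroups have cofinite Markov topology, then the Zariski topology is cofinite. -/
theorem inC_of_countable
    (h : ∀ H : Subgroup G, (H : Set G).Countable → MarkovCofinite H) : InC G := by
  intro l
  by_contra hcon
  push Not at hcon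
  obtain ⟨hinf, hne⟩ := hcon
  rw [Set.ne_univ_iff_exists_notMem] at hne
  obtain ⟨b, hb⟩ := hne
  have hinf' : (elem l).Infinite := hinf
  obtain ⟨D, hD, hDi, hDc⟩ : ∃ D ⊆ elem l, D.Infinite ∧ D.Countable := by
    have := hinf'.to_subtype
    have e := Infinite.natEmbedding (elem l)
    refine ⟨Set.range (fun n => ((e n : elem l) : G)), ?_, ?_, Set.countable_range _⟩
    · rintro _ ⟨n, rfl⟩
      exact (e n).2
    · exact Set.infinite_range_of_injective (Subtype.val_injective.comp e.injective)
  set C : Set G := {g | ∃ q ∈ l, g = q.1} with hC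
  have hCfin : C.Finite := by
    refine (List.finite_toSet (l.map Prod.fst)).subset ?_
    rintro g ⟨q, hq, rfl⟩
    exact List.mem_map_of_mem hq
  set S : Set G := (D ∪ {b}) ∪ C with hS
  have hSc : S.Countable := (hDc.union (Set.countable_singleton b)).union hCfin.countable
  set H : Subgroup G := Subgroup.closure S with hH
  have hHc : (H : Set G).Countable := countable_closure hSc
  have hsub : S ⊆ H := Subgroup.subset_closure
  -- the equation over H
  have hlist := lift_list H l (fun q hq => hsub (Or.inr ⟨q, hq, rfl⟩))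
  obtain ⟨l', hl'⟩ := hlist
  have key : ∀ x : H, x ∈ elem l' ↔ (x : G) ∈ elem l := by
    intro x
    simp only [elem, Set.mem_ofPred_eq, ← hl', List.map_map]
    rw [← Subtype.coe_inj, Subgroup.val_list_prod, List.map_map]
    simp only [Subgroup.coe_one]
    have : (Subtype.val ∘ fun q : H × ℤˣ => q.1 * x ^ (q.2 : ℤ)) =
        ((fun q : G × ℤˣ => q.1 * (x : G) ^ (q.2 : ℤ)) ∘ fun q : H × ℤˣ => ((q.1 : G), q.2)) := by
      funext q
      simp
    rw [this]
  have hopen : IsOpen[markov H] (elem l')ᶜ := by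
    rw [markov_open_iff]
    intro t h1 h2
    let _ := t
    have h3 : IsClosed (elem l') := by
      have h4 : elem l' = (fun x : H => (l'.map (fun q => q.1 * x ^ (q.2 : ℤ))).prod) ⁻¹' {1} := rfl
      rw [h4]
      exact isClosed_singleton.preimage (continuous_list l')
    exact h3.isOpen_compl
  rcases (h H hHc _).1 hopen with h1 | h1
  · have h2 : (⟨b, hsub (Or.inl (Or.inr rfl))⟩ : H) ∈ (elem l')ᶜ := by
      intro h3
      exact hb ((key _).1 h3)
    rw [h1] at h2
    exact h2
  · rw [compl_compl] at h1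
    apply hDi
    have h2 : D ⊆ Subtype.val '' (elem l') := by
      intro x hx
      exact ⟨⟨x, hsub (Or.inl (Or.inl hx))⟩, (key _).2 (hD hx), rfl⟩
    exact (h1.image _).subset h2

/-- extension of a Hausdorff group topology from a subgroup of an abelian group. -/
theorem extend_topology (hab : ∀ a b : G, a * b = b * a) (H : Subgroup G)
    (t : TopologicalSpace H) (h1 : @IsTopologicalGroup H t _) (h2 : @T2Space H t) :
    ∃ T : TopologicalSpace G, @IsTopologicalGroup G T _ ∧ @T2Space G T ∧
      ∀ s : Set G, IsOpen[T] s → IsOpen[t] ((Subtype.val : H → G) ⁻¹' s) := by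
  let _ := t
  let B : GroupFilterBasis G :=
    { sets := {U | ∃ V ∈ 𝓝 (1 : H), U = Subtype.val '' V}
      nonempty := ⟨_, Set.univ, Filter.univ_mem, rfl⟩
      inter_sets := by
        rintro x y ⟨V, hV, rfl⟩ ⟨W, hW, rfl⟩
        refine ⟨_, ⟨V ∩ W, Filter.inter_mem hV hW, rfl⟩, ?_⟩
        exact Set.image_inter_subset _ _ _
      one' := by
        rintro U ⟨V, hV, rfl⟩
        exact ⟨1, mem_of_mem_nhds hV, rfl⟩
      mul' := by
        rintro U ⟨V, hV, rfl⟩
        obtain ⟨W, hW, -, -, hWW⟩ := exists_closed_nhds_one_inv_eq_mul_subset hV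
        refine ⟨_, ⟨W, hW, rfl⟩, ?_⟩
        rintro _ ⟨_, ⟨a, ha, rfl⟩, _, ⟨b, hb, rfl⟩, rfl⟩
        exact ⟨a * b, hWW (Set.mul_mem_mul ha hb), rfl⟩
      inv' := by
        rintro U ⟨V, hV, rfl⟩
        refine ⟨_, ⟨(fun x : H => x⁻¹) ⁻¹' V, ?_, rfl⟩, ?_⟩
        · exact (continuous_inv.tendsto' (1 : H) 1 inv_one) hV
        · rintro _ ⟨a, ha, rfl⟩
          exact ⟨a⁻¹, ha, rfl⟩
      conj' := by
        rintro x₀ U ⟨V, hV, rfl⟩
        refine ⟨_, ⟨V, hV, rfl⟩, ?_⟩
        rintro _ ⟨a, ha, rfl⟩
        refine ⟨a, ha, ?_⟩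
        change (a : G) = x₀ * (a : G) * x₀⁻¹
        rw [hab x₀ (a : G)]
        simp }
  refine ⟨B.topology, B.isTopologicalGroup, ?_, ?_⟩
  · let := B.topology
    have := B.isTopologicalGroup
    apply IsTopologicalGroup.t2Space_of_one_sep
    intro x hx
    by_cases hxH : x ∈ H
    · have hne : (⟨x, hxH⟩ : H) ≠ 1 := fun h => hx (congrArg Subtype.val h)
      have h3 : ({⟨x, hxH⟩}ᶜ : Set H) ∈ 𝓝 (1 : H) := by
        apply IsOpen.mem_nhds isOpen_compl_singleton
        exact fun h => hne h.symm
      refine ⟨Subtype.val '' ({⟨x, hxH⟩}ᶜ : Set H), B.mem_nhds_one ⟨_, h3, rfl⟩, ?_⟩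
      rintro ⟨a, ha, hax⟩
      exact ha (Subtype.ext hax)
    · refine ⟨Subtype.val '' (Set.univ : Set H), B.mem_nhds_one ⟨_, Filter.univ_mem, rfl⟩, ?_⟩
      rintro ⟨a, -, rfl⟩
      exact hxH a.2
  · intro s hs
    rw [isOpen_iff_mem_nhds]
    intro x hx
    have h3 : s ∈ @nhds G B.topology (x : G) := @IsOpen.mem_nhds G B.topology _ _ hs hx
    rw [(B.nhds_hasBasis (x : G)).mem_iff] at h3
    obtain ⟨U, ⟨V, hV, rfl⟩, hsub⟩ := h3
    have h4 : (fun y : H => x⁻¹ * y) ⁻¹' V ∈ 𝓝 x := by
      have : Filter.Tendsto (fun y : H => x⁻¹ * y) (𝓝 x) (𝓝 1) :=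
        (continuous_const.mul continuous_id).tendsto' x 1 (by simp)
      exact this hV
    filter_upwards [h4] with y hy
    apply hsub
    refine ⟨((x⁻¹ * y : H) : G), ⟨_, hy, rfl⟩, ?_⟩
    simp

/-- the abelian case. -/
theorem abelian_case (hab : ∀ a b : G, a * b = b * a)
    (h : ∀ H : Subgroup G, (H : Set G).Countable → MarkovCofinite H) : MarkovCofinite G := by
  intro s
  refine ⟨fun hs => ?_, markov_open_of_cofinite⟩
  by_contra hcon
  push Not at hcon
  obtain ⟨hne, hinf⟩ := hcon
  obtain ⟨g, hg⟩ := hne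
  have hinf' : (sᶜ).Infinite := hinf
  obtain ⟨D, hD, hDi, hDc⟩ : ∃ D ⊆ sᶜ, D.Infinite ∧ D.Countable := by
    have := hinf'.to_subtype
    have e := Infinite.natEmbedding (sᶜ : Set G)
    refine ⟨Set.range (fun n => ((e n : (sᶜ : Set G)) : G)), ?_, ?_, Set.countable_range _⟩
    · rintro _ ⟨n, rfl⟩
      exact (e n).2
    · exact Set.infinite_range_of_injective (Subtype.val_injective.comp e.injective)
  set S : Set G := D ∪ {g} with hS
  have hSc : S.Countable := hDc.union (Set.countable_singleton g)
  set H : Subgroup G := Subgroup.closure S with hH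
  have hHc : (H : Set G).Countable := countable_closure hSc
  have hsub : S ⊆ H := Subgroup.subset_closure
  have h1 : IsOpen[markov H] ((Subtype.val : H → G) ⁻¹' s) := by
    rw [markov_open_iff]
    intro t ht1 ht2
    obtain ⟨T, hT1, hT2, hT3⟩ := extend_topology hab H t ht1 ht2
    exact hT3 s ((markov_open_iff s).1 hs T hT1 hT2)
  rcases (h H hHc _).1 h1 with h2 | h2
  · have : (⟨g, hsub (Or.inr rfl)⟩ : H) ∈ ((Subtype.val : H → G) ⁻¹' s) := hg
    rw [h2] at this
    exact this
  · apply hDi
    have h3 : D ⊆ Subtype.val '' (((Subtype.val : H → G) ⁻¹' s)ᶜ) := by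
      intro x hx
      exact ⟨⟨x, hsub (Or.inl hx)⟩, hD hx, rfl⟩
    exact (h2.image _).subset h3

/-- the countable case. -/
theorem countable_case (hc : Countable G)
    (h : ∀ H : Subgroup G, (H : Set G).Countable → MarkovCofinite H) : MarkovCofinite G := by
  intro s
  refine ⟨fun hs => ?_, markov_open_of_cofinite⟩
  have h1 : IsOpen[markov (⊤ : Subgroup G)] ((Subtype.val : (⊤ : Subgroup G) → G) ⁻¹' s) := by
    rw [markov_open_iff]
    intro t ht1 ht2
    let e : G →* (⊤ : Subgroup G) := (Subgroup.topEquiv (G := G)).symm.toMonoidHom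
    let _ := t
    have hT1 : @IsTopologicalGroup G (TopologicalSpace.induced e t) _ := topologicalGroup_induced e
    have hT2 : @T2Space G (TopologicalSpace.induced e t) := by
      let : TopologicalSpace G := TopologicalSpace.induced e t
      exact T2Space.of_injective_continuous (f := e) (Subgroup.topEquiv (G := G)).symm.injective
        continuous_induced_dom
    obtain ⟨V, hV, hVs⟩ := (markov_open_iff s).1 hs _ hT1 hT2
    have : (Subtype.val : (⊤ : Subgroup G) → G) ⁻¹' s = V := by
      rw [← hVs]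
      ext x
      rfl
    rw [this]
    exact hV
  rcases (h ⊤ (Set.to_countable _) _).1 h1 with h2 | h2
  · left
    ext x
    constructor
    · intro hx
      have : (⟨x, Subgroup.mem_top x⟩ : (⊤ : Subgroup G)) ∈
          ((Subtype.val : (⊤ : Subgroup G) → G) ⁻¹' s) := hx
      rw [h2] at this
      exact this
    · intro hx; exact absurd hx (Set.notMem_empty x)
  · right
    have h3 : sᶜ ⊆ Subtype.val '' (((Subtype.val : (⊤ : Subgroup G) → G) ⁻¹' s)ᶜ) := by
      intro x hx
      exact ⟨⟨x, Subgroup.mem_top x⟩, hx, rfl⟩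
    exact (h2.image _).subset h3

end

end Pool.Agent.TH994.ZC
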